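import Mathlib

/-!
# Best constant for disjoint dilated convex bodies (MP_9210c2_an)

`c(K)` is comparable, up to a factor `C n log n`, with the translative packing density of `K`.
-/

namespace H801.CC

open MeasureTheory Set

/-- `K` is a nonempty open bounded convex set with `K = -K`. -/
structure SymBody {n : ℕ} (K : Set (Fin n → ℝ)) : Prop where
  isOpen : IsOpen K
  bdd : Bornology.IsBounded K
  convex : Convex ℝ K
  symm : ∀ x ∈ K, -x ∈ K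
  nonempty : K.Nonempty

/-- The copy `x + r K`. -/
def cp {n : ℕ} (K : Set (Fin n → ℝ)) (x : Fin n → ℝ) (r : ℝ) : Set (Fin n → ℝ) :=
  (fun k => x + r • k) '' K

/-- The property in the definition of `c(K)`: from every family `(x + δ x K)`, `x ∈ E`, `E` compact,
one can select countably many pairwise disjoint members of total volume at least `c |E|`. -/
def Good {n : ℕ} (K : Set (Fin n → ℝ)) (c : ℝ) : Prop :=
  ∀ E : Set (Fin n → ℝ), IsCompact E → ∀ δ : (Fin n → ℝ) → ℝ, (∀ x ∈ E, 0 < δ x) →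
    ∃ S : Set (Fin n → ℝ), S ⊆ E ∧ S.Countable ∧
      S.PairwiseDisjoint (fun x => cp K x (δ x)) ∧
      ENNReal.ofReal c * volume E ≤ ∑' x : S, volume (cp K (x : Fin n → ℝ) (δ x))

/-- The constant `c(K)` of the problem. -/
noncomputable def cConst {n : ℕ} (K : Set (Fin n → ℝ)) : ℝ := sSup {c : ℝ | 0 ≤ c ∧ Good K c}

/-- The largest number of pairwise disjoint translates of `K` with centres in the box `[-R, R]^n`. -/
noncomputable def packNum {n : ℕ} (K : Set (Fin n → ℝ)) (R : ℝ) : ℕ :=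
  sSup {m : ℕ | ∃ X : Finset (Fin n → ℝ), (∀ x ∈ X, ∀ i, |x i| ≤ R) ∧
    (X : Set (Fin n → ℝ)).PairwiseDisjoint (fun x => cp K x 1) ∧ X.card = m}

/-- The translative packing density of `K`. -/
noncomputable def packDens {n : ℕ} (K : Set (Fin n → ℝ)) : ℝ :=
  Filter.limsup (fun R : ℝ => (packNum K R : ℝ) * (volume K).toReal / (2 * R) ^ n) Filter.atTop

/-- The open cube `(-1,1)^n`. -/
def cube (n : ℕ) : Set (Fin n → ℝ) := {x | ∀ i, |x i| < 1}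

/-! ### Tasks -/

/-- A1 volume of a copy -/
def VolCp : Prop := ∀ (n : ℕ) (K : Set (Fin n → ℝ)) (x : Fin n → ℝ) (r : ℝ), 0 ≤ r →
  volume (cp K x r) = ENNReal.ofReal (r ^ n) * volume K

/-- A1 basic geometry -/
def Geom : Prop := ∀ (n : ℕ) (K : Set (Fin n → ℝ)), SymBody K →
  (0 : Fin n → ℝ) ∈ K ∧ 0 < volume K ∧ volume K < ⊤ ∧
  (∀ (x : Fin n → ℝ) (r : ℝ), 0 < r → IsOpen (cp K x r)) ∧
  (∀ (x : Fin n → ℝ) (r s : ℝ), 0 ≤ r → r ≤ s → cp K x r ⊆ cp K x s) ∧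
  (∀ (x y : Fin n → ℝ) (r s : ℝ), 0 < r → 0 < s → (cp K x r ∩ cp K y s).Nonempty →
      x ∈ cp K y (r + s))

/-- A2 packing numbers -/
def PackNum : Prop := ∀ (n : ℕ) (K : Set (Fin n → ℝ)), SymBody K →
  (∃ d : ℝ, 0 < d ∧ ∀ R : ℝ, 0 ≤ R → ∀ X : Finset (Fin n → ℝ), (∀ x ∈ X, ∀ i, |x i| ≤ R) →
    (X : Set (Fin n → ℝ)).PairwiseDisjoint (fun x => cp K x 1) →
      (X.card : ℝ) * (volume K).toReal ≤ (2 * (R + d)) ^ n ∧ X.card ≤ packNum K R) ∧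
  (∀ R : ℝ, 0 ≤ R → ∃ X : Finset (Fin n → ℝ), (∀ x ∈ X, ∀ i, |x i| ≤ R) ∧
    (X : Set (Fin n → ℝ)).PairwiseDisjoint (fun x => cp K x 1) ∧ X.card = packNum K R) ∧
  packDens K ≤ 1 ∧ 0 ≤ packDens K ∧
  (∀ θ : ℝ, θ < packDens K → ∀ R₀ : ℝ, ∃ R : ℝ, R₀ ≤ R ∧ 0 < R ∧
    θ < (packNum K R : ℝ) * (volume K).toReal / (2 * R) ^ n)

/-- A3 averaging over translations -/
def Averaging : Prop := ∀ (n : ℕ) (X : Finset (Fin n → ℝ)) (R D s : ℝ), 0 ≤ R → 0 < D → 0 < s →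
  (∀ x ∈ X, ∀ i, |x i| ≤ R) → ∀ F : Set (Fin n → ℝ), IsCompact F → (∀ y ∈ F, ∀ i, |y i| ≤ D) →
  ∃ (t : Fin n → ℝ) (Y : Finset (Fin n → ℝ)), Y ⊆ X ∧ (∀ x ∈ Y, s • x + t ∈ F) ∧
    (X.card : ℝ) * (volume F).toReal ≤ (Y.card : ℝ) * (2 * (D + s * R)) ^ n

/-- A4 perturbation: disjoint translates stay disjoint after a slightly larger dilation of the
centres and a small perturbation -/
def Perturb : Prop := ∀ (n : ℕ) (K : Set (Fin n → ℝ)), SymBody K → ∀ ρ ε : ℝ, 0 < ρ → 0 < ε →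
  ∃ η : ℝ, 0 < η ∧ ∀ x x' t y y' : Fin n → ℝ, Disjoint (cp K x 1) (cp K x' 1) →
    dist y ((ρ * (1 + ε)) • x + t) < η → dist y' ((ρ * (1 + ε)) • x' + t) < η →
    ∀ r r' : ℝ, 0 < r → r ≤ ρ → 0 < r' → r' ≤ ρ → Disjoint (cp K y r) (cp K y' r')

/-- B one class of radii -/
def OneClass : Prop := ∀ (n : ℕ), 2 ≤ n → ∀ (K : Set (Fin n → ℝ)), SymBody K →
  ∀ θ : ℝ, 0 ≤ θ → θ < packDens K →
  ∀ (A : Set (Fin n → ℝ)), Bornology.IsBounded A → ∀ (δ : (Fin n → ℝ) → ℝ) (ρ : ℝ), 0 < ρ →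
    (∀ x ∈ A, ρ ≤ δ x ∧ δ x ≤ ρ * (1 + 1 / n)) →
    ∃ S : Finset (Fin n → ℝ), (S : Set (Fin n → ℝ)) ⊆ A ∧
      (S : Set (Fin n → ℝ)).PairwiseDisjoint (fun x => cp K x (δ x)) ∧
      ENNReal.ofReal (θ / 3) * volume A ≤ ∑ x ∈ S, volume (cp K x (δ x))

/-- C finitely many well separated classes (index `0` = the largest radii) -/
def Greedy : Prop := ∀ (n : ℕ), 2 ≤ n → ∀ (K : Set (Fin n → ℝ)), SymBody K →
  ∀ θ : ℝ, 0 < θ → θ < packDens K →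
  ∀ (N : ℕ) (A : ℕ → Set (Fin n → ℝ)) (δ : (Fin n → ℝ) → ℝ) (ρ : ℕ → ℝ),
    (∀ k, Bornology.IsBounded (A k)) → (∀ k, 0 < ρ k) →
    (∀ k, ∀ x ∈ A k, ρ k ≤ δ x ∧ δ x ≤ ρ k * (1 + 1 / n)) →
    (∀ k l, k < l → (n : ℝ) * ρ l ≤ ρ k) →
    ∃ S : Finset (Fin n → ℝ), (S : Set (Fin n → ℝ)) ⊆ (⋃ k ∈ Finset.range N, A k) ∧
      (S : Set (Fin n → ℝ)).PairwiseDisjoint (fun x => cp K x (δ x)) ∧
      ENNReal.ofReal (2 * θ / 15) * volume (⋃ k ∈ Finset.range N, A k) ≤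
        ∑ x ∈ S, volume (cp K x (δ x))

/-- D pigeonhole over the classes -/
def LowerGood : Prop := ∀ (n : ℕ), 2 ≤ n → ∀ (K : Set (Fin n → ℝ)), SymBody K →
  ∀ m : ℕ, 1 ≤ m → (n : ℝ) ≤ (1 + 1 / (n : ℝ)) ^ m →
  ∀ c : ℝ, 0 ≤ c → c < 2 * packDens K / (15 * m) → Good K c

/-- E upper bound -/
def UpperBound : Prop := ∀ (n : ℕ), 1 ≤ n → ∀ (K : Set (Fin n → ℝ)), SymBody K →
  ∀ c : ℝ, 0 ≤ c → Good K c → c ≤ packDens K

/-- F the cube -/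
def CubeDens : Prop := ∀ (n : ℕ), 1 ≤ n → SymBody (cube n) ∧ 1 ≤ packDens (cube n)

/-- G numerical choice of `m` -/
def ChooseM : Prop := ∀ n : ℕ, 2 ≤ n → ∃ m : ℕ, 1 ≤ m ∧ (n : ℝ) ≤ (1 + 1 / (n : ℝ)) ^ m ∧
  15 * (m : ℝ) ≤ 2 * (17 * n * Real.log n)

/-- H the theorem -/
def Main : Prop :=
  (∀ (n : ℕ), 2 ≤ n → ∀ (K : Set (Fin n → ℝ)), SymBody K →
    packDens K / (17 * n * Real.log n) ≤ cConst K ∧ cConst K ≤ packDens K) ∧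
  (∀ (n : ℕ), 2 ≤ n → 1 / (17 * n * Real.log n) ≤ cConst (cube n) ∧ cConst (cube n) ≤ 1)

end H801.CC
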