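import Mathlib
import Pool.Agent.H801R4.CC.Defs

set_option autoImplicit false

/-! Task A1 (helper338). -/

namespace H801.CC

open MeasureTheory Set
open scoped Pointwise

namespace A1x

theorem cp_eq {n : ℕ} (K : Set (Fin n → ℝ)) (x : Fin n → ℝ) (r : ℝ) :
    cp K x r = x +ᵥ (r • K) := by
  unfold cp
  rw [← Set.image_smul, ← Set.image_vadd, Set.image_image]
  rfl

end A1x

open A1x

theorem volCp : VolCp := by
  intro n K x r hr
  rw [cp_eq, measure_vadd, Measure.addHaar_smul, Module.finrank_fin_fun,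
    abs_of_nonneg (pow_nonneg hr n)]

theorem geom : Geom := by
  intro n K hK
  have h0 : (0 : Fin n → ℝ) ∈ K := by
    obtain ⟨x, hx⟩ := hK.nonempty
    have h1 := hK.convex hx (hK.symm x hx) (by norm_num : (0 : ℝ) ≤ 1 / 2)
      (by norm_num : (0 : ℝ) ≤ 1 / 2) (by norm_num)
    have h2 : (1 / 2 : ℝ) • x + (1 / 2 : ℝ) • (-x) = 0 := by
      rw [smul_neg, add_neg_cancel]
    rwa [h2] at h1
  refine ⟨h0, hK.isOpen.measure_pos volume hK.nonempty, hK.bdd.measure_lt_top, ?_, ?_, ?_⟩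
  · intro x r hr
    rw [cp_eq]
    exact (hK.isOpen.smul₀ hr.ne').vadd x
  · intro x r s hr hrs
    rintro _ ⟨k, hk, rfl⟩
    rcases (hr.trans hrs).eq_or_lt with hs | hs
    · have : r = 0 := le_antisymm (by rw [hs]; exact hrs) hr
      exact ⟨k, hk, by simp only; rw [this, ← hs]⟩
    · refine ⟨(r / s) • k, hK.convex.smul_mem_of_zero_mem h0 hk
        ⟨div_nonneg hr hs.le, (div_le_one hs).2 hrs⟩, ?_⟩
      simp only
      rw [smul_smul, mul_div_cancel₀ _ hs.ne']
  · rintro x y r s hr hs ⟨_, ⟨k1, hk1, rfl⟩, ⟨k2, hk2, h12⟩⟩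
    simp only at h12
    have hrs : 0 < r + s := by linarith
    have h1 := hK.convex hk2 (hK.symm k1 hk1) (div_nonneg hs.le hrs.le)
      (div_nonneg hr.le hrs.le) (by field_simp; ring)
    refine ⟨_, h1, ?_⟩
    simp only
    rw [smul_add, smul_smul, smul_smul, mul_div_cancel₀ _ hrs.ne', mul_div_cancel₀ _ hrs.ne',
      smul_neg, ← add_assoc, h12]
    simp

end H801.CC
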