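import Mathlib
import Pool.Agent.H801R4.CC.Defs

/-!
# Task A2: packing numbers and packing density
-/

namespace H801.CC

open MeasureTheory Set

private lemma A2_vol (h1 : VolCp) (h2 : Geom) {n : ℕ} {K : Set (Fin n → ℝ)} (hK : SymBody K)
    {d : ℝ} (hd : 0 < d) (hKd : ∀ k ∈ K, ‖k‖ < d) {R : ℝ} (hR : 0 ≤ R)
    (X : Finset (Fin n → ℝ)) (hX : ∀ x ∈ X, ∀ i, |x i| ≤ R)
    (hX2 : (X : Set (Fin n → ℝ)).PairwiseDisjoint (fun x => cp K x 1)) :
    (X.card : ℝ) * (volume K).toReal ≤ (2 * (R + d)) ^ n := by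
  obtain ⟨-, hpos, hfin, hopen, -, -⟩ := h2 n K hK
  have h3 : volume (⋃ x ∈ X, cp K x 1) = (X.card : ENNReal) * volume K := by
    rw [measure_biUnion_finset hX2 fun x _ => (hopen x 1 one_pos).measurableSet]
    rw [Finset.sum_congr rfl fun x _ => h1 n K x 1 zero_le_one]
    simp
  have h4 : (⋃ x ∈ X, cp K x 1) ⊆ Metric.closedBall (0 : Fin n → ℝ) (R + d) := by
    intro y hy
    simp only [mem_iUnion, exists_prop] at hy
    obtain ⟨x, hx, k, hk, rfl⟩ := hy
    rw [Metric.mem_closedBall, dist_zero_right]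
    have h5 : ‖x‖ ≤ R := by
      rw [pi_norm_le_iff_of_nonneg hR]
      intro i
      rw [Real.norm_eq_abs]
      exact hX x hx i
    calc ‖x + (1 : ℝ) • k‖ ≤ ‖x‖ + ‖(1 : ℝ) • k‖ := norm_add_le _ _
      _ ≤ R + d := by
        rw [one_smul]
        exact add_le_add h5 (hKd k hk).le
  have h6 := measure_mono (μ := volume) h4
  rw [h3, Real.volume_pi_closedBall _ (by positivity), Fintype.card_fin] at h6
  have h7 := ENNReal.toReal_mono ENNReal.ofReal_ne_top h6
  rw [ENNReal.toReal_mul, ENNReal.toReal_natCast, ENNReal.toReal_ofReal (by positivity)] at h7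
  exact h7

theorem packNum_facts (h1 : VolCp) (h2 : Geom) : PackNum := by
  intro n K hK
  obtain ⟨-, hpos, hfin, hopen, -, -⟩ := h2 n K hK
  have hv : 0 < (volume K).toReal := ENNReal.toReal_pos hpos.ne' hfin.ne
  obtain ⟨d, hd, hKd⟩ := hK.bdd.exists_pos_norm_lt
  have key := fun (R : ℝ) (hR : 0 ≤ R) (X : Finset (Fin n → ℝ)) hX hX2 =>
    A2_vol h1 h2 hK hd hKd hR X hX hX2
  have hbdd : ∀ R : ℝ, 0 ≤ R → BddAbove {m : ℕ | ∃ X : Finset (Fin n → ℝ),
      (∀ x ∈ X, ∀ i, |x i| ≤ R) ∧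
      (X : Set (Fin n → ℝ)).PairwiseDisjoint (fun x => cp K x 1) ∧ X.card = m} := by
    intro R hR
    refine ⟨⌈(2 * (R + d)) ^ n / (volume K).toReal⌉₊, ?_⟩
    rintro m ⟨X, hX, hX2, rfl⟩
    have h3 := key R hR X hX hX2
    have h4 : (X.card : ℝ) ≤ (2 * (R + d)) ^ n / (volume K).toReal := by
      rw [le_div_iff₀ hv]
      exact h3
    exact_mod_cast h4.trans (Nat.le_ceil _)
  have hmem : ∀ R : ℝ, 0 ≤ R → ∃ X : Finset (Fin n → ℝ), (∀ x ∈ X, ∀ i, |x i| ≤ R) ∧
      (X : Set (Fin n → ℝ)).PairwiseDisjoint (fun x => cp K x 1) ∧ X.card = packNum K R := by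
    intro R hR
    have h3 : {m : ℕ | ∃ X : Finset (Fin n → ℝ), (∀ x ∈ X, ∀ i, |x i| ≤ R) ∧
        (X : Set (Fin n → ℝ)).PairwiseDisjoint (fun x => cp K x 1) ∧ X.card = m}.Nonempty :=
      ⟨0, ∅, by simp, by simp, by simp⟩
    exact Nat.sSup_mem h3 (hbdd R hR)
  set f : ℝ → ℝ := fun R => (packNum K R : ℝ) * (volume K).toReal / (2 * R) ^ n with hf
  have hf1 : ∀ R : ℝ, 0 < R → f R ≤ ((R + d) / R) ^ n := by
    intro R hR
    obtain ⟨X, hX, hX2, hc⟩ := hmem R hR.le
    have h3 := key R hR.le X hX hX2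
    rw [hc] at h3
    simp only [hf]
    rw [div_le_iff₀ (by positivity)]
    refine h3.trans (le_of_eq ?_)
    rw [div_pow, mul_pow, mul_pow]
    field_simp
  have hf0 : ∀ R : ℝ, 0 < R → 0 ≤ f R := fun R hR => by
    simp only [hf]
    positivity
  have hlim : Filter.Tendsto (fun R : ℝ => ((R + d) / R) ^ n) Filter.atTop (nhds 1) := by
    have h3 : Filter.Tendsto (fun R : ℝ => 1 + d / R) Filter.atTop (nhds (1 + 0)) :=
      tendsto_const_nhds.add (tendsto_const_nhds.div_atTop Filter.tendsto_id)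
    have h4 := h3.pow n
    rw [add_zero, one_pow] at h4
    refine h4.congr' ?_
    filter_upwards [Filter.eventually_gt_atTop 0] with R hR
    congr 1
    field_simp
  have hb1 : Filter.IsBoundedUnder (· ≤ ·) Filter.atTop (fun R : ℝ => ((R + d) / R) ^ n) :=
    hlim.isBoundedUnder_le
  have hfb : Filter.IsBoundedUnder (· ≤ ·) Filter.atTop f := by
    refine hb1.mono_le ?_
    filter_upwards [Filter.eventually_gt_atTop 0] with R hR using hf1 R hR
  have hfc : Filter.IsCoboundedUnder (· ≤ ·) Filter.atTop f := by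
    refine Filter.IsBoundedUnder.isCoboundedUnder_le ?_
    refine ⟨0, ?_⟩
    rw [Filter.eventually_map]
    filter_upwards [Filter.eventually_gt_atTop 0] with R hR using hf0 R hR
  refine ⟨⟨d, hd, fun R hR X hX hX2 => ⟨key R hR X hX hX2, ?_⟩⟩, hmem, ?_, ?_, ?_⟩
  · exact le_csSup (hbdd R hR) ⟨X, hX, hX2, rfl⟩
  · have h3 : Filter.limsup f Filter.atTop ≤
        Filter.limsup (fun R : ℝ => ((R + d) / R) ^ n) Filter.atTop := by
      refine Filter.limsup_le_limsup ?_ hfc hb1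
      filter_upwards [Filter.eventually_gt_atTop 0] with R hR using hf1 R hR
    rw [hlim.limsup_eq] at h3
    exact h3
  · have h3 : Filter.limsup (fun _ : ℝ => (0 : ℝ)) Filter.atTop ≤ Filter.limsup f Filter.atTop := by
      refine Filter.limsup_le_limsup ?_ ?_ hfb
      · filter_upwards [Filter.eventually_gt_atTop 0] with R hR using hf0 R hR
      · exact (Filter.isBoundedUnder_const (a := (0 : ℝ))).isCoboundedUnder_le
    rw [Filter.limsup_const] at h3
    exact h3
  · intro θ hθ R₀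
    have h3 : ∃ᶠ R in Filter.atTop, θ < f R := Filter.frequently_lt_of_lt_limsup hfc hθ
    rw [Filter.frequently_atTop] at h3
    obtain ⟨R, hR, h4⟩ := h3 (max R₀ 1)
    exact ⟨R, (le_max_left _ _).trans hR, lt_of_lt_of_le one_pos ((le_max_right _ _).trans hR), h4⟩

end H801.CC
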