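import Mathlib
import Pool.Agent.H801R4.CC.Defs

/-!
# A3: averaging over translations
-/

namespace H801.CC

open MeasureTheory Set

theorem averaging : Averaging := by
  classical
  intro n X R D s hR hD hs hX F hF hFD
  let Y : (Fin n → ℝ) → Finset (Fin n → ℝ) := fun t => X.filter (fun x => s • x + t ∈ F)
  have hYX : ∀ t, Y t ⊆ X := fun t => Finset.filter_subset _ _
  -- a translation with the largest number of points
  obtain ⟨t0, ht0⟩ : ∃ t0, ∀ t, (Y t).card ≤ (Y t0).card := by
    have hfin : (range (fun t => (Y t).card)).Finite := by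
      apply (Set.finite_Iic X.card).subset
      rintro _ ⟨t, rfl⟩
      exact Finset.card_le_card (hYX t)
    obtain ⟨m, ⟨t0, hm⟩, hmax⟩ := Set.exists_max_image _ id hfin ⟨_, mem_range_self 0⟩
    refine ⟨t0, fun t => ?_⟩
    have h1 := hmax _ (mem_range_self t)
    simp only [id] at h1
    simp only at hm
    rw [hm]
    exact h1
  refine ⟨t0, Y t0, hYX t0, fun x hx => (Finset.mem_filter.1 hx).2, ?_⟩
  have hFm : MeasurableSet F := hF.measurableSet
  have hFfin : volume F < ⊤ := hF.measure_lt_top
  set B : Set (Fin n → ℝ) := Icc (fun _ => -(D + s * R)) (fun _ => D + s * R) with hB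
  have hDs : 0 ≤ D + s * R := by positivity
  have hBv : volume B = ENNReal.ofReal ((2 * (D + s * R)) ^ n) := by
    rw [hB, Real.volume_Icc_pi]
    simp only [Finset.prod_const, Finset.card_univ, Fintype.card_fin]
    rw [ENNReal.ofReal_pow (by positivity)]
    congr 2
    ring
  have hBm : MeasurableSet B := measurableSet_Icc
  have hcount : ∀ t, ∑ x ∈ X, F.indicator (fun _ => (1 : ENNReal)) (s • x + t) =
      ((Y t).card : ENNReal) := by
    intro t
    have h1 : ∀ x ∈ X, F.indicator (fun _ => (1 : ENNReal)) (s • x + t) =
        if s • x + t ∈ F then 1 else 0 := by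
      intro x _
      rw [Set.indicator_apply]
    rw [Finset.sum_congr rfl h1, Finset.sum_boole]
  have hzero : ∀ t, t ∉ B → Y t = ∅ := by
    intro t ht
    rw [Finset.eq_empty_iff_forall_notMem]
    intro x hx
    apply ht
    have hx1 := (Finset.mem_filter.1 hx).1
    have hx2 := (Finset.mem_filter.1 hx).2
    have key : ∀ i, |t i| ≤ D + s * R := by
      intro i
      have h1 := hFD _ hx2 i
      have h2 := hX x hx1 i
      simp only [Pi.add_apply, Pi.smul_apply, smul_eq_mul] at h1
      have h3 : t i = (s * x i + t i) - s * x i := by ring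
      rw [h3]
      calc |(s * x i + t i) - s * x i| ≤ |s * x i + t i| + |s * x i| := abs_sub _ _
        _ ≤ D + s * R := by
            rw [abs_mul, abs_of_pos hs]
            exact add_le_add h1 (mul_le_mul_of_nonneg_left h2 hs.le)
    rw [hB, mem_Icc]
    constructor
    · intro i
      exact (abs_le.1 (key i)).1
    · intro i
      exact (abs_le.1 (key i)).2
  have hint : ∫⁻ t : Fin n → ℝ, ∑ x ∈ X, F.indicator (fun _ => (1 : ENNReal)) (s • x + t) =
      (X.card : ENNReal) * volume F := by
    rw [lintegral_finsetSum]
    · have h1 : ∀ x ∈ X, ∫⁻ t : Fin n → ℝ, F.indicator (fun _ => (1 : ENNReal)) (s • x + t) =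
          volume F := by
        intro x _
        rw [lintegral_add_left_eq_self (fun t => F.indicator (fun _ => (1 : ENNReal)) t) (s • x)]
        rw [lintegral_indicator hFm]
        simp
      rw [Finset.sum_congr rfl h1, Finset.sum_const, nsmul_eq_mul]
    · intro x _
      exact (measurable_const.indicator hFm).comp (measurable_const_add _)
  have hle : ∫⁻ t : Fin n → ℝ, ∑ x ∈ X, F.indicator (fun _ => (1 : ENNReal)) (s • x + t) ≤
      ((Y t0).card : ENNReal) * volume B := by
    calc ∫⁻ t : Fin n → ℝ, ∑ x ∈ X, F.indicator (fun _ => (1 : ENNReal)) (s • x + t)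
        ≤ ∫⁻ t : Fin n → ℝ, B.indicator (fun _ => ((Y t0).card : ENNReal)) t := by
          apply lintegral_mono
          intro t
          simp only
          rw [hcount t]
          by_cases ht : t ∈ B
          · rw [Set.indicator_of_mem ht]
            exact_mod_cast ht0 t
          · rw [Set.indicator_of_notMem ht, hzero t ht]
            simp
      _ = ((Y t0).card : ENNReal) * volume B := by
          rw [lintegral_indicator hBm]
          simp
  rw [hint] at hle
  have htop : ((Y t0).card : ENNReal) * volume B ≠ ⊤ := by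
    rw [hBv]
    exact ENNReal.mul_ne_top (ENNReal.natCast_ne_top _) ENNReal.ofReal_ne_top
  have h1 := ENNReal.toReal_mono htop hle
  rw [ENNReal.toReal_mul, ENNReal.toReal_mul, ENNReal.toReal_natCast, ENNReal.toReal_natCast, hBv,
    ENNReal.toReal_ofReal (by positivity)] at h1
  exact h1

end H801.CC
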