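import Mathlib
import Pool.Agent.H801R4.CC.Defs

namespace H801.CC

open MeasureTheory Set

theorem perturb (h : Geom) : Perturb := by
  intro n K hK ρ ε hρ hε
  obtain ⟨h0, -, -, -, hmono, hmeet⟩ := h n K hK
  obtain ⟨a, ha, hball⟩ := Metric.isOpen_iff.1 hK.isOpen 0 h0
  refine ⟨a * ε * ρ, by positivity, ?_⟩
  intro x x' t y y' hdis hy hy' r r' hr hrρ hr' hr'ρ
  rw [Set.disjoint_iff_inter_eq_empty]
  by_contra hne
  have hne' := Set.nonempty_iff_ne_empty.2 hne
  have h1 := hmeet y y' r r' hr hr' hne'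
  have h2 := hmono y' (r + r') (2 * ρ) (by positivity) (by linarith) h1
  obtain ⟨k1, hk1, hk1e⟩ := h2
  simp only at hk1e
  -- errors
  set e := y - ((ρ * (1 + ε)) • x + t) with he
  set e' := y' - ((ρ * (1 + ε)) • x' + t) with he'
  have hen : ‖e‖ < a * ε * ρ := by rwa [he, ← dist_eq_norm]
  have hen' : ‖e'‖ < a * ε * ρ := by rwa [he', ← dist_eq_norm]
  set k2 := (1 / (2 * ρ * ε)) • (e' - e) with hk2
  have hk2K : k2 ∈ K := by
    apply hball
    rw [mem_ball_zero_iff, hk2, norm_smul, Real.norm_of_nonneg (by positivity)]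
    have : ‖e' - e‖ < 2 * (a * ε * ρ) := lt_of_le_of_lt (norm_sub_le _ _) (by linarith)
    rw [div_mul_eq_mul_div, one_mul, div_lt_iff₀ (by positivity)]
    nlinarith
  set k3 := (1 / (1 + ε)) • k1 + (ε / (1 + ε)) • k2 with hk3
  have hk3K : k3 ∈ K := by
    apply hK.convex hk1 hk2K (by positivity) (by positivity)
    field_simp
  have hx : x = x' + (2 : ℝ) • k3 := by
    have e1 : (ρ * (1 + ε)) • (x - x') = (ρ * (1 + ε)) • ((2 : ℝ) • k3) := by
      have e2 : (ρ * (1 + ε)) • (x - x') = (y - y') + (e' - e) := by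
        rw [he, he', smul_sub]
        abel
      have e3 : y - y' = (2 * ρ) • k1 := by
        rw [← hk1e]; abel
      have e4 : e' - e = (2 * ρ * ε) • k2 := by
        rw [hk2, smul_smul]
        rw [show 2 * ρ * ε * (1 / (2 * ρ * ε)) = 1 by field_simp, one_smul]
      rw [e2, e3, e4, hk3]
      simp only [smul_add, smul_smul]
      congr 2
      · field_simp
      · field_simp
    have e5 : x - x' = (2 : ℝ) • k3 := by
      have hq : (ρ * (1 + ε)) ≠ 0 := by positivity
      exact smul_right_injective _ hq e1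
    rw [← e5]; abel
  have hm1 : x' + k3 ∈ cp K x 1 := by
    refine ⟨-k3, hK.symm _ hk3K, ?_⟩
    simp only
    rw [hx, two_smul, one_smul]
    abel
  have hm2 : x' + k3 ∈ cp K x' 1 := ⟨k3, hk3K, by simp⟩
  exact Set.disjoint_left.1 hdis hm1 hm2

end H801.CC
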