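import Mathlib
import Pool.Agent.H801R4.CC.Defs

/-!
# One class of radii
-/

namespace H801.CC

open MeasureTheory Set

theorem oneClass_eps (n : ℕ) : ∃ ε : ℝ, 0 < ε ∧ (1 + ε) ^ n ≤ 1.04 := by
  have h1 : Filter.Tendsto (fun ε : ℝ => (1 + ε) ^ n) (nhds 0) (nhds ((1 + 0) ^ n)) := by
    apply Continuous.tendsto
    fun_prop
  have h2 : ((1 : ℝ) + 0) ^ n < 1.04 := by
    rw [add_zero, one_pow]
    norm_num
  have h3 := h1.eventually_lt_const h2
  rw [Metric.eventually_nhds_iff] at h3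
  obtain ⟨r, hr, h4⟩ := h3
  refine ⟨r / 2, by positivity, le_of_lt (h4 ?_)⟩
  rw [Real.dist_eq, sub_zero, abs_of_pos (by positivity)]
  linarith

theorem oneClass_e (n : ℕ) (hn : 2 ≤ n) : (1 + 1 / (n : ℝ)) ^ n ≤ 2.7183 := by
  have hn0 : (0 : ℝ) < n := by
    have : (2 : ℝ) ≤ n := by exact_mod_cast hn
    linarith
  have h1 : 1 + 1 / (n : ℝ) ≤ Real.exp (1 / n) := by
    have := Real.add_one_le_exp (1 / (n : ℝ))
    linarith
  have h2 : (1 + 1 / (n : ℝ)) ^ n ≤ (Real.exp (1 / n)) ^ n :=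
    pow_le_pow_left₀ (by positivity) h1 n
  rw [← Real.exp_nat_mul] at h2
  have h3 : (n : ℝ) * (1 / n) = 1 := by
    field_simp
  rw [h3] at h2
  have := Real.exp_one_lt_d9
  linarith

theorem oneClass_num (n : ℕ) (hn : 2 ≤ n) {ρ ε s D R θ vF vK cX cY : ℝ} (hρ : 0 < ρ) (hε : 0 < ε)
    (hεn : (1 + ε) ^ n ≤ 1.04) (hs : s = ρ * (1 + 1 / n) * (1 + ε)) (hD : 0 < D) (hR : 0 < R)
    (hRD : D ≤ ε * (s * R)) (hvF : 0 ≤ vF) (hvK : 0 ≤ vK) (hcY : 0 ≤ cY)
    (h1 : cX * vF ≤ cY * (2 * (D + s * R)) ^ n)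
    (h2 : θ < cX * vK / (2 * R) ^ n) : θ / 3 * vF ≤ cY * (ρ ^ n * vK) := by
  have hn0 : (0 : ℝ) < n := by
    have : (2 : ℝ) ≤ n := by exact_mod_cast hn
    linarith
  have hs0 : 0 < s := by rw [hs]; positivity
  have hR2 : 0 < (2 * R) ^ n := by positivity
  have h3 : θ * (2 * R) ^ n ≤ cX * vK := le_of_lt ((lt_div_iff₀ hR2).1 h2)
  have h4 : θ * (2 * R) ^ n * vF ≤ cY * (2 * (D + s * R)) ^ n * vK := by
    calc θ * (2 * R) ^ n * vF ≤ cX * vK * vF := mul_le_mul_of_nonneg_right h3 hvF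
      _ = cX * vF * vK := by ring
      _ ≤ _ := mul_le_mul_of_nonneg_right h1 hvK
  have h5 : (2 * (D + s * R)) ^ n ≤ (2 * R) ^ n * (s ^ n * (1 + ε) ^ n) := by
    rw [← mul_pow, ← mul_pow]
    apply pow_le_pow_left₀ (by positivity)
    nlinarith
  have h6 : s ^ n = ρ ^ n * (1 + 1 / (n : ℝ)) ^ n * (1 + ε) ^ n := by
    rw [hs, mul_pow, mul_pow]
  have h7 := oneClass_e n hn
  have h8 : s ^ n * (1 + ε) ^ n ≤ 3 * ρ ^ n := by
    rw [h6]
    have hp : 0 < ρ ^ n := by positivity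
    have e1 : (1 + 1 / (n : ℝ)) ^ n * (1 + ε) ^ n ≤ 2.7183 * 1.04 :=
      mul_le_mul h7 hεn (by positivity) (by norm_num)
    have e2 : (1 + 1 / (n : ℝ)) ^ n * (1 + ε) ^ n * (1 + ε) ^ n ≤ 2.7183 * 1.04 * 1.04 :=
      mul_le_mul e1 hεn (by positivity) (by norm_num)
    calc ρ ^ n * (1 + 1 / (n : ℝ)) ^ n * (1 + ε) ^ n * (1 + ε) ^ n
        = ρ ^ n * ((1 + 1 / (n : ℝ)) ^ n * (1 + ε) ^ n * (1 + ε) ^ n) := by ring
      _ ≤ ρ ^ n * (2.7183 * 1.04 * 1.04) := mul_le_mul_of_nonneg_left e2 hp.le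
      _ ≤ 3 * ρ ^ n := by nlinarith
  have h9 : θ * (2 * R) ^ n * vF ≤ (2 * R) ^ n * (cY * (3 * ρ ^ n) * vK) := by
    calc θ * (2 * R) ^ n * vF ≤ cY * (2 * (D + s * R)) ^ n * vK := h4
      _ ≤ cY * ((2 * R) ^ n * (s ^ n * (1 + ε) ^ n)) * vK := by gcongr
      _ ≤ cY * ((2 * R) ^ n * (3 * ρ ^ n)) * vK := by gcongr
      _ = _ := by ring
  have h10 : (2 * R) ^ n * (θ * vF) ≤ (2 * R) ^ n * (cY * (3 * ρ ^ n) * vK) := by
    calc (2 * R) ^ n * (θ * vF) = θ * (2 * R) ^ n * vF := by ring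
      _ ≤ _ := h9
  have h11 : θ * vF ≤ cY * (3 * ρ ^ n) * vK := le_of_mul_le_mul_left h10 hR2
  nlinarith

theorem oneClass (h1 : VolCp) (h2 : Geom) (h3 : PackNum) (h4 : Averaging) (h5 : Perturb) :
    OneClass := by
  intro n hn K hK θ hθ0 hθ A hA δ ρ hρ hδ
  have hn0 : (0 : ℝ) < n := by
    have : (2 : ℝ) ≤ n := by exact_mod_cast hn
    linarith
  obtain ⟨hK0, hKpos, hKfin, -, -, -⟩ := h2 n K hK
  obtain ⟨ε, hε, hεn⟩ := oneClass_eps n
  set ρ1 : ℝ := ρ * (1 + 1 / n) with hρ1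
  have hρ1pos : 0 < ρ1 := by positivity
  set s : ℝ := ρ1 * (1 + ε) with hs
  have hspos : 0 < s := by positivity
  have hF : IsCompact (closure A) := hA.isCompact_closure
  obtain ⟨D0, hD0⟩ := hF.isBounded.exists_norm_le
  set D : ℝ := max D0 1 with hDdef
  have hD : 0 < D := lt_of_lt_of_le one_pos (le_max_right _ _)
  have hDF : ∀ y ∈ closure A, ∀ i, |y i| ≤ D := by
    intro y hy i
    have e1 : ‖y i‖ ≤ ‖y‖ := norm_le_pi_norm y i
    rw [Real.norm_eq_abs] at e1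
    exact e1.trans ((hD0 y hy).trans (le_max_left _ _))
  obtain ⟨-, hX, -, -, hdens⟩ := h3 n K hK
  obtain ⟨R, hR0, hRpos, hRθ⟩ := hdens θ hθ (D / (s * ε))
  obtain ⟨X, hXR, hXd, hXc⟩ := hX R hRpos.le
  have hRD : D ≤ ε * (s * R) := by
    have e1 : D / (s * ε) * (s * ε) = D := by field_simp
    have e2 : D / (s * ε) * (s * ε) ≤ R * (s * ε) :=
      mul_le_mul_of_nonneg_right hR0 (by positivity)
    rw [e1] at e2
    calc D ≤ R * (s * ε) := e2
      _ = ε * (s * R) := by ring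
  obtain ⟨t, Y, hYX, hYF, hYc⟩ := h4 n X R D s hRpos.le hD hspos hXR (closure A) hF hDF
  obtain ⟨η, hη, hpert⟩ := h5 n K hK ρ1 ε hρ1pos hε
  have hy : ∀ x : Fin n → ℝ, ∃ y : Fin n → ℝ, x ∈ Y → y ∈ A ∧ dist y (s • x + t) < η := by
    intro x
    by_cases hx : x ∈ Y
    · obtain ⟨b, hb, hd⟩ := Metric.mem_closure_iff.1 (hYF x hx) η hη
      exact ⟨b, fun _ => ⟨hb, by rw [dist_comm]; exact hd⟩⟩
    · exact ⟨0, fun h => absurd h hx⟩
  choose y hy using hy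
  have hδpos : ∀ x ∈ A, 0 < δ x := fun x hx => lt_of_lt_of_le hρ (hδ x hx).1
  have hdis : ∀ x ∈ Y, ∀ x' ∈ Y, x ≠ x' →
      Disjoint (cp K (y x) (δ (y x))) (cp K (y x') (δ (y x'))) := by
    intro x hx x' hx' hne
    have e1 : Disjoint (cp K x 1) (cp K x' 1) := hXd (hYX hx) (hYX hx') hne
    exact hpert x x' t (y x) (y x') e1 (hy x hx).2 (hy x' hx').2 (δ (y x)) (δ (y x'))
      (hδpos _ (hy x hx).1) (hδ _ (hy x hx).1).2 (hδpos _ (hy x' hx').1) (hδ _ (hy x' hx').1).2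
  have hself : ∀ (z : Fin n → ℝ) (r : ℝ), z ∈ cp K z r := by
    intro z r
    exact ⟨0, hK0, by simp⟩
  have hinj : Set.InjOn y (Y : Set (Fin n → ℝ)) := by
    intro x hx x' hx' hxx
    by_contra hne
    have e1 := hdis x hx x' hx' hne
    rw [hxx] at e1
    exact Set.disjoint_left.1 e1 (hself _ _) (hself _ _)
  classical
  refine ⟨Y.image y, ?_, ?_, ?_⟩
  · intro z hz
    rw [Finset.mem_coe, Finset.mem_image] at hz
    obtain ⟨x, hx, rfl⟩ := hz
    exact (hy x hx).1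
  · intro z hz z' hz' hne
    rw [Finset.mem_coe, Finset.mem_image] at hz hz'
    obtain ⟨x, hx, rfl⟩ := hz
    obtain ⟨x', hx', rfl⟩ := hz'
    exact hdis x hx x' hx' (fun h => hne (by rw [h]))
  · rw [Finset.sum_image (fun x hx x' hx' h => hinj hx hx' h)]
    have hsum : (Y.card : ENNReal) * (ENNReal.ofReal (ρ ^ n) * volume K) ≤
        ∑ x ∈ Y, volume (cp K (y x) (δ (y x))) := by
      rw [← nsmul_eq_mul]
      apply Finset.card_nsmul_le_sum
      intro x hx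
      rw [h1 n K (y x) (δ (y x)) (hδpos _ (hy x hx).1).le]
      gcongr
      exact (hδ _ (hy x hx).1).1
    refine le_trans ?_ hsum
    have hFfin : volume (closure A) < ⊤ := hF.measure_lt_top
    have hAF : volume A ≤ volume (closure A) := measure_mono subset_closure
    have hnum : θ / 3 * (volume (closure A)).toReal ≤
        (Y.card : ℝ) * (ρ ^ n * (volume K).toReal) := by
      refine oneClass_num n hn (s := s) (D := D) (R := R) (cX := (X.card : ℝ)) hρ hε hεn ?_ hD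
        hRpos hRD ENNReal.toReal_nonneg ENNReal.toReal_nonneg (Nat.cast_nonneg _) hYc ?_
      · rw [hs, hρ1]
      · rw [hXc]
        exact hRθ
    calc ENNReal.ofReal (θ / 3) * volume A
        ≤ ENNReal.ofReal (θ / 3) * volume (closure A) := by gcongr
      _ = ENNReal.ofReal (θ / 3 * (volume (closure A)).toReal) := by
          rw [ENNReal.ofReal_mul (by positivity), ENNReal.ofReal_toReal hFfin.ne]
      _ ≤ ENNReal.ofReal ((Y.card : ℝ) * (ρ ^ n * (volume K).toReal)) :=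
          ENNReal.ofReal_le_ofReal hnum
      _ = _ := by
          rw [ENNReal.ofReal_mul (Nat.cast_nonneg _), ENNReal.ofReal_mul (by positivity),
            ENNReal.ofReal_toReal hKfin.ne, ENNReal.ofReal_natCast]

end H801.CC
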