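import Mathlib
import Pool.Agent.H801R4.CC.Defs

set_option autoImplicit false

namespace H801.CC

open MeasureTheory Set

/-- the enlarged copies -/
def cBig {n : ℕ} (K : Set (Fin n → ℝ)) (δ : (Fin n → ℝ) → ℝ) (s : ℝ)
    (S : Finset (Fin n → ℝ)) : Set (Fin n → ℝ) :=
  ⋃ y ∈ S, cp K y (δ y * (1 + s))

theorem c_exp {n : ℕ} (hn : 2 ≤ n) :
    (1 + (1 + 1 / (n : ℝ)) / n) ^ n ≤ 9 / 2 := by
  have hn' : (2 : ℝ) ≤ n := by exact_mod_cast hn
  have hn0 : (0 : ℝ) < n := by linarith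
  have h1 : (1 + (1 + 1 / (n : ℝ)) / n) ^ n ≤ Real.exp ((1 + 1 / (n : ℝ)) / n) ^ n := by
    apply pow_le_pow_left₀
    · positivity
    · have := Real.add_one_le_exp ((1 + 1 / (n : ℝ)) / n)
      linarith
  rw [← Real.exp_nat_mul] at h1
  have h2 : (n : ℝ) * ((1 + 1 / (n : ℝ)) / n) = 1 + 1 / n := by field_simp
  rw [h2] at h1
  have h3 : (1 : ℝ) + 1 / n ≤ 3 / 2 := by
    have : (1 : ℝ) / n ≤ 1 / 2 := one_div_le_one_div_of_le (by norm_num) hn'
    linarith
  have h4 : Real.exp (3 / 2) ≤ 9 / 2 := by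
    have h5 : Real.exp (3 / 2) ^ 2 ≤ (9 / 2) ^ 2 := by
      rw [← Real.exp_nat_mul]
      have h6 : ((2 : ℕ) : ℝ) * (3 / 2) = ((3 : ℕ) : ℝ) * 1 := by norm_num
      rw [h6, Real.exp_nat_mul]
      have h7 := Real.exp_one_lt_d9
      calc Real.exp 1 ^ 3 ≤ (2.7182818286 : ℝ) ^ 3 :=
            pow_le_pow_left₀ (Real.exp_pos _).le h7.le 3
        _ ≤ (9 / 2) ^ 2 := by norm_num
    exact (sq_le_sq₀ (Real.exp_pos _).le (by norm_num)).1 h5
  exact h1.trans ((Real.exp_le_exp.2 h3).trans h4)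

theorem c_step (h2 : Geom) (h4 : OneClass) {n : ℕ} (hn : 2 ≤ n) {K : Set (Fin n → ℝ)}
    (hK : SymBody K) {θ : ℝ} (hθ : 0 < θ) (hθ' : θ < packDens K) (A : ℕ → Set (Fin n → ℝ))
    (δ : (Fin n → ℝ) → ℝ) (ρ : ℕ → ℝ) (hb : ∀ k, Bornology.IsBounded (A k))
    (hρ : ∀ k, 0 < ρ k) (hδ : ∀ k, ∀ x ∈ A k, ρ k ≤ δ x ∧ δ x ≤ ρ k * (1 + 1 / n))
    (hsep : ∀ k l, k < l → (n : ℝ) * ρ l ≤ ρ k) (N : ℕ) :
    ∃ S : Finset (Fin n → ℝ), (S : Set (Fin n → ℝ)) ⊆ (⋃ k ∈ Finset.range N, A k) ∧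
      (S : Set (Fin n → ℝ)).PairwiseDisjoint (fun x => cp K x (δ x)) ∧
      ENNReal.ofReal (θ / 3) *
        volume ((⋃ k ∈ Finset.range N, A k) \ cBig K δ ((1 + 1 / (n : ℝ)) / n) S) ≤
        ∑ x ∈ S, volume (cp K x (δ x)) := by
  classical
  obtain ⟨h0, _, _, _, hmono, hmeet⟩ := h2 n K hK
  have hn' : (2 : ℝ) ≤ n := by exact_mod_cast hn
  have hn0 : (0 : ℝ) < n := by linarith
  obtain ⟨s, hs⟩ : ∃ s : ℝ, s = (1 + 1 / (n : ℝ)) / n := ⟨_, rfl⟩
  have hs0 : 0 < s := by rw [hs]; positivity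
  rw [← hs]
  induction N with
  | zero =>
    refine ⟨∅, by simp, by simp, ?_⟩
    simp
  | succ N ih =>
    obtain ⟨S, hS1, hS2, hS3⟩ := ih
    obtain ⟨S', hT1, hT2, hT3⟩ := h4 n hn K hK θ hθ.le hθ' (A N \ cBig K δ s S)
      ((hb N).subset diff_subset) δ (ρ N) (hρ N) (fun x hx => hδ N x hx.1)
    -- positivity of the radii
    have hposS : ∀ y ∈ S, ∃ k < N, y ∈ A k := by
      intro y hy
      have h5 := hS1 (Finset.mem_coe.2 hy)
      simp only [mem_iUnion, Finset.mem_range] at h5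
      obtain ⟨k, hk, hyk⟩ := h5
      exact ⟨k, hk, hyk⟩
    have hcross : ∀ x ∈ S', ∀ y ∈ S, Disjoint (cp K x (δ x)) (cp K y (δ y)) := by
      intro x hx y hy
      rw [Set.disjoint_iff_inter_eq_empty]
      by_contra hne
      have hxN := hT1 (Finset.mem_coe.2 hx)
      obtain ⟨k, hk, hyk⟩ := hposS y hy
      have hx1 := hδ N x hxN.1
      have hy1 := hδ k y hyk
      have hxp : 0 < δ x := lt_of_lt_of_le (hρ N) hx1.1
      have hyp : 0 < δ y := lt_of_lt_of_le (hρ k) hy1.1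
      have hmem := hmeet x y (δ x) (δ y) hxp hyp (Set.nonempty_iff_ne_empty.2 hne)
      apply hxN.2
      unfold cBig
      simp only [mem_iUnion]
      refine ⟨y, hy, hmono y (δ x + δ y) (δ y * (1 + s)) (by linarith) ?_ hmem⟩
      have h6 := hsep k N hk
      have h7 : ρ N ≤ ρ k / n := by
        rw [le_div_iff₀ hn0]; linarith
      have h8 : δ x ≤ δ y * s := by
        calc δ x ≤ ρ N * (1 + 1 / n) := hx1.2
          _ ≤ ρ k / n * (1 + 1 / n) := mul_le_mul_of_nonneg_right h7 (by positivity)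
          _ = ρ k * s := by rw [hs]; ring
          _ ≤ δ y * s := mul_le_mul_of_nonneg_right hy1.1 hs0.le
      linarith
    have hdisj : Disjoint S S' := by
      rw [Finset.disjoint_left]
      intro x hx hx'
      have hxN := hT1 (Finset.mem_coe.2 hx')
      obtain ⟨k, hk, hyk⟩ := hposS x hx
      apply hxN.2
      unfold cBig
      simp only [mem_iUnion]
      refine ⟨x, hx, 0, h0, ?_⟩
      simp
    refine ⟨S ∪ S', ?_, ?_, ?_⟩
    · intro x hx
      rw [Finset.coe_union] at hx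
      simp only [mem_iUnion, Finset.mem_range]
      rcases hx with hx | hx
      · obtain ⟨k, hk, hxk⟩ := hposS x hx
        exact ⟨k, by omega, hxk⟩
      · exact ⟨N, by omega, (hT1 hx).1⟩
    · intro x hx y hy hxy
      rw [Finset.coe_union] at hx hy
      rcases hx with hx | hx <;> rcases hy with hy | hy
      · exact hS2 hx hy hxy
      · exact (hcross y hy x hx).symm
      · exact hcross x hx y hy
      · exact hT2 hx hy hxy
    · rw [Finset.sum_union hdisj]
      have hsub : (⋃ k ∈ Finset.range (N + 1), A k) \ cBig K δ s (S ∪ S') ⊆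
          ((⋃ k ∈ Finset.range N, A k) \ cBig K δ s S) ∪ (A N \ cBig K δ s S) := by
        rintro x ⟨hx, hxB⟩
        have hxB' : x ∉ cBig K δ s S := by
          intro h
          apply hxB
          unfold cBig at h ⊢
          simp only [mem_iUnion] at h ⊢
          obtain ⟨y, hy, h9⟩ := h
          exact ⟨y, Finset.mem_union_left _ hy, h9⟩
        simp only [mem_iUnion, Finset.mem_range] at hx
        obtain ⟨k, hk, hxk⟩ := hx
        by_cases hkN : k = N
        · subst hkN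
          exact Or.inr ⟨hxk, hxB'⟩
        · refine Or.inl ⟨?_, hxB'⟩
          simp only [mem_iUnion, Finset.mem_range]
          exact ⟨k, by omega, hxk⟩
      calc ENNReal.ofReal (θ / 3) *
            volume ((⋃ k ∈ Finset.range (N + 1), A k) \ cBig K δ s (S ∪ S'))
          ≤ ENNReal.ofReal (θ / 3) *
            (volume ((⋃ k ∈ Finset.range N, A k) \ cBig K δ s S) +
              volume (A N \ cBig K δ s S)) :=
            mul_le_mul_right ((measure_mono hsub).trans (measure_union_le _ _)) _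
        _ ≤ _ := by
            rw [mul_add]
            exact add_le_add hS3 hT3

theorem greedy (h1 : VolCp) (h2 : Geom) (h3 : PackNum) (h4 : OneClass) : Greedy := by
  classical
  intro n hn K hK θ hθ hθ' N A δ ρ hb hρ hδ hsep
  obtain ⟨S, hS1, hS2, hS3⟩ := c_step h2 h4 hn hK hθ hθ' A δ ρ hb hρ hδ hsep N
  refine ⟨S, hS1, hS2, ?_⟩
  have hexp := c_exp hn
  have hn' : (2 : ℝ) ≤ n := by exact_mod_cast hn
  have hn0 : (0 : ℝ) < n := by linarith
  obtain ⟨s, hs⟩ : ∃ s : ℝ, s = (1 + 1 / (n : ℝ)) / n := ⟨_, rfl⟩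
  have hs0 : 0 < s := by rw [hs]; positivity
  rw [← hs] at hS3 hexp
  have hθ1 : θ ≤ 1 := hθ'.le.trans (h3 n K hK).2.2.1
  obtain ⟨U, hU⟩ : ∃ U : Set (Fin n → ℝ), U = ⋃ k ∈ Finset.range N, A k := ⟨_, rfl⟩
  rw [← hU] at hS3 ⊢
  obtain ⟨V, hV⟩ : ∃ V : ENNReal, V = ∑ x ∈ S, volume (cp K x (δ x)) := ⟨_, rfl⟩
  rw [← hV] at hS3 ⊢
  have hpos : ∀ y ∈ S, 0 < δ y := by
    intro y hy
    have h5 := hS1 (Finset.mem_coe.2 hy)
    simp only [mem_iUnion, Finset.mem_range] at h5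
    obtain ⟨k, hk, hyk⟩ := h5
    exact lt_of_lt_of_le (hρ k) (hδ k y hyk).1
  -- the volume of the enlarged copies
  have hB : volume (cBig K δ s S) ≤ ENNReal.ofReal (9 / 2) * V := by
    have h5 : volume (cBig K δ s S) ≤ ∑ y ∈ S, volume (cp K y (δ y * (1 + s))) :=
      measure_biUnion_finset_le _ _
    refine h5.trans ?_
    rw [hV, Finset.mul_sum]
    refine Finset.sum_le_sum fun y hy => ?_
    have hy0 := hpos y hy
    rw [h1 n K y _ (by positivity), h1 n K y _ hy0.le, ← mul_assoc,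
      ← ENNReal.ofReal_mul (by norm_num)]
    refine mul_le_mul_left (ENNReal.ofReal_le_ofReal ?_) _
    rw [mul_pow, mul_comm]
    exact mul_le_mul_of_nonneg_right hexp (by positivity)
  have hUB : volume U ≤ volume (U \ cBig K δ s S) + volume (cBig K δ s S) := by
    refine (measure_mono ?_).trans (measure_union_le _ _)
    intro x hx
    by_cases hxB : x ∈ cBig K δ s S
    · exact Or.inr hxB
    · exact Or.inl ⟨hx, hxB⟩
  have e1 : ENNReal.ofReal (2 * θ / 15) = ENNReal.ofReal (2 / 5) * ENNReal.ofReal (θ / 3) := by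
    rw [← ENNReal.ofReal_mul (by norm_num)]
    congr 1
    ring
  have e2 : ENNReal.ofReal (2 * θ / 15) * volume (U \ cBig K δ s S) ≤
      ENNReal.ofReal (2 / 5) * V := by
    rw [e1, mul_assoc]
    exact mul_le_mul_right hS3 _
  have e3 : ENNReal.ofReal (2 * θ / 15) * volume (cBig K δ s S) ≤ ENNReal.ofReal (3 / 5) * V := by
    calc ENNReal.ofReal (2 * θ / 15) * volume (cBig K δ s S)
        ≤ ENNReal.ofReal (2 * θ / 15) * (ENNReal.ofReal (9 / 2) * V) := mul_le_mul_right hB _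
      _ = ENNReal.ofReal (2 * θ / 15 * (9 / 2)) * V := by
          rw [← mul_assoc, ← ENNReal.ofReal_mul (by positivity)]
      _ ≤ ENNReal.ofReal (3 / 5) * V :=
          mul_le_mul_left (ENNReal.ofReal_le_ofReal (by linarith)) _
  calc ENNReal.ofReal (2 * θ / 15) * volume U
      ≤ ENNReal.ofReal (2 * θ / 15) *
        (volume (U \ cBig K δ s S) + volume (cBig K δ s S)) := mul_le_mul_right hUB _
    _ ≤ ENNReal.ofReal (2 / 5) * V + ENNReal.ofReal (3 / 5) * V := by
        rw [mul_add]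
        exact add_le_add e2 e3
    _ = V := by
        rw [← add_mul, ← ENNReal.ofReal_add (by norm_num) (by norm_num)]
        norm_num

end H801.CC
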