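import Mathlib
import Pool.Agent.H801R4.CC.Defs

set_option autoImplicit false

namespace H801.CC

open MeasureTheory Set Filter

theorem F_cube_eq (n : ℕ) : cube n = Set.pi Set.univ (fun _ : Fin n => Set.Ioo (-1 : ℝ) 1) := by
  ext x
  simp [cube, abs_lt]

theorem F_vol (n : ℕ) : (volume (cube n)).toReal = 2 ^ n := by
  rw [F_cube_eq, Real.volume_pi_Ioo_toReal (fun _ => by norm_num)]
  norm_num

theorem F_sym (n : ℕ) : SymBody (cube n) := by
  refine ⟨?_, ?_, ?_, ?_, ?_⟩
  · rw [F_cube_eq]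
    exact isOpen_set_pi Set.finite_univ (fun _ _ => isOpen_Ioo)
  · rw [Metric.isBounded_iff_subset_closedBall 0]
    refine ⟨1, fun x hx => ?_⟩
    rw [mem_closedBall_zero_iff, pi_norm_le_iff_of_nonneg zero_le_one]
    intro i
    rw [Real.norm_eq_abs]
    exact (hx i).le
  · rw [F_cube_eq]
    exact convex_pi (fun _ _ => convex_Ioo _ _)
  · intro x hx i
    rw [Pi.neg_apply, abs_neg]
    exact hx i
  · exact ⟨0, fun i => by simp⟩

/-- the lattice points -/
noncomputable def F_map (n : ℕ) : (Fin n → ℤ) ↪ (Fin n → ℝ) :=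
  ⟨fun j i => 2 * (j i : ℝ), fun j j' h => by
    funext i
    have := congrFun h i
    simp only at this
    have h2 : (j i : ℝ) = j' i := by linarith
    exact_mod_cast h2⟩

noncomputable def F_set (n k : ℕ) : Finset (Fin n → ℝ) :=
  (Fintype.piFinset (fun _ : Fin n => Finset.Icc (-(k : ℤ)) k)).map (F_map n)

theorem F_card (n k : ℕ) : (F_set n k).card = (2 * k + 1) ^ n := by
  unfold F_set
  rw [Finset.card_map, Fintype.card_piFinset]
  simp only [Int.card_Icc, Finset.prod_const, Finset.card_univ, Fintype.card_fin]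
  congr 1
  omega

theorem F_low (h3 : PackNum) (n : ℕ) (R : ℝ) (hR : 1 ≤ R) :
    (R - 1) ^ n ≤ (packNum (cube n) R : ℝ) := by
  obtain ⟨⟨d, hd, h⟩, -⟩ := h3 n (cube n) (F_sym n)
  set k := ⌊R / 2⌋₊ with hk
  have hk1 : (k : ℝ) ≤ R / 2 := Nat.floor_le (by linarith)
  have hk2 : R / 2 < k + 1 := Nat.lt_floor_add_one _
  have h1 := (h R (by linarith) (F_set n k) ?_ ?_).2
  · rw [F_card] at h1
    have h2 : ((2 * k + 1 : ℕ) : ℝ) ^ n ≤ (packNum (cube n) R : ℝ) := by exact_mod_cast h1
    refine le_trans ?_ h2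
    refine pow_le_pow_left₀ (by linarith) ?_ n
    push_cast
    linarith
  · intro x hx i
    unfold F_set at hx
    rw [Finset.mem_map] at hx
    obtain ⟨j, hj, rfl⟩ := hx
    rw [Fintype.mem_piFinset] at hj
    have := hj i
    rw [Finset.mem_Icc] at this
    have a1 : (-(k : ℝ)) ≤ (j i : ℝ) := by exact_mod_cast this.1
    have a2 : (j i : ℝ) ≤ k := by exact_mod_cast this.2
    show |2 * (j i : ℝ)| ≤ R
    rw [abs_le]
    constructor <;> linarith
  · intro x hx y hy hxy
    rw [Finset.mem_coe] at hx hy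
    unfold F_set at hx hy
    rw [Finset.mem_map] at hx hy
    obtain ⟨j, hj, rfl⟩ := hx
    obtain ⟨j', hj', rfl⟩ := hy
    have hne : ∃ i, j i ≠ j' i := by
      by_contra hcon
      push Not at hcon
      exact hxy (by rw [funext hcon])
    obtain ⟨i, hi⟩ := hne
    rw [Function.onFun, Set.disjoint_left]
    rintro z ⟨a, ha, rfl⟩ ⟨b, hb, hab⟩
    have e := congrFun hab i
    simp only [Pi.add_apply, one_smul] at e
    have e' : 2 * (j' i : ℝ) + b i = 2 * (j i : ℝ) + a i := e
    have ha' := abs_lt.mp (ha i)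
    have hb' := abs_lt.mp (hb i)
    rcases lt_or_gt_of_ne hi with h | h
    · have : (j i : ℝ) + 1 ≤ j' i := by exact_mod_cast h
      linarith
    · have : (j' i : ℝ) + 1 ≤ j i := by exact_mod_cast h
      linarith

theorem cubeDens (h1 : VolCp) (h2 : Geom) (h3 : PackNum) : CubeDens := by
  intro n hn
  refine ⟨F_sym n, ?_⟩
  obtain ⟨⟨d, hd, hup⟩, hmax, -⟩ := h3 n (cube n) (F_sym n)
  unfold packDens
  rw [F_vol]
  have hlim : Tendsto (fun R : ℝ => ((R - 1) / R) ^ n) atTop (nhds 1) := by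
    have : Tendsto (fun R : ℝ => (1 - R⁻¹) ^ n) atTop (nhds ((1 - 0) ^ n)) :=
      (tendsto_const_nhds.sub tendsto_inv_atTop_zero).pow n
    rw [sub_zero, one_pow] at this
    refine this.congr' ?_
    filter_upwards [eventually_gt_atTop (0 : ℝ)] with R hR
    rw [sub_div, div_self hR.ne', one_div]
  rw [← hlim.limsup_eq]
  refine limsup_le_limsup ?_ hlim.isBoundedUnder_ge.isCoboundedUnder_le ?_
  · filter_upwards [eventually_ge_atTop (1 : ℝ)] with R hR
    have hR0 : 0 < R := by linarith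
    rw [div_pow, mul_pow, mul_comm ((packNum (cube n) R : ℝ)), mul_div_mul_left _ _ (by positivity)]
    exact div_le_div_of_nonneg_right (F_low h3 n R hR) (by positivity)
  · refine ⟨(1 + d) ^ n, ?_⟩
    rw [eventually_map]
    filter_upwards [eventually_ge_atTop (1 : ℝ)] with R hR
    have hR0 : 0 < R := by linarith
    obtain ⟨X, hX1, hX2, hX3⟩ := hmax R hR0.le
    have h4 := (hup R hR0.le X hX1 hX2).1
    rw [hX3, F_vol] at h4
    rw [div_le_iff₀ (by positivity)]
    refine h4.trans ?_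
    rw [← mul_pow]
    refine pow_le_pow_left₀ (by positivity) ?_ n
    nlinarith

end H801.CC
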