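import Mathlib
import Pool.Agent.H801R4.CC.Defs

/-! G: numerical choice of `m` (helper501). -/

namespace H801.CC

theorem chooseM : ChooseM := by
  intro n hn
  have hn2 : (2 : ℝ) ≤ n := by exact_mod_cast hn
  have hn0 : (0 : ℝ) < n := by linarith
  have hlog2 : 0.6931471803 < Real.log 2 := Real.log_two_gt_d9
  have hlogn : Real.log 2 ≤ Real.log n := Real.log_le_log (by norm_num) hn2
  have hL0 : 0 < Real.log n := by linarith
  have hm := Nat.le_ceil (((n : ℝ) + 1) * Real.log n)
  have hm2 := Nat.ceil_lt_add_one (show 0 ≤ ((n : ℝ) + 1) * Real.log n by positivity)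
  set m : ℕ := ⌈((n : ℝ) + 1) * Real.log n⌉₊ with hmdef
  refine ⟨m, ?_, ?_, ?_⟩
  · have h1 : (0 : ℝ) < m := lt_of_lt_of_le (by positivity) hm
    exact_mod_cast h1
  · have hpos : (0 : ℝ) < 1 + 1 / (n : ℝ) := by positivity
    have h1 := Real.one_sub_inv_le_log_of_pos hpos
    have h2 : 1 - (1 + 1 / (n : ℝ))⁻¹ = 1 / ((n : ℝ) + 1) := by
      field_simp
      ring
    rw [h2] at h1
    have h3 : Real.log n ≤ m * Real.log (1 + 1 / (n : ℝ)) := by
      have h4 : (m : ℝ) * (1 / ((n : ℝ) + 1)) ≤ m * Real.log (1 + 1 / (n : ℝ)) :=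
        mul_le_mul_of_nonneg_left h1 (Nat.cast_nonneg _)
      refine le_trans ?_ h4
      rw [mul_one_div, le_div_iff₀ (by positivity)]
      linarith
    rw [← Real.log_pow] at h3
    exact (Real.log_le_log_iff hn0 (by positivity)).1 h3
  · have h5 : (2 : ℝ) * 0.6931471803 ≤ n * Real.log n :=
      mul_le_mul hn2 (by linarith) (by norm_num) hn0.le
    have h6 : Real.log n * 2 ≤ n * Real.log n := by nlinarith
    nlinarith

end H801.CC
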